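import Pool.Agent.H801.Pt.Time

/-!
# Foremost coverage of periodic temporal trees with a fixed period

An instance `T : Tr` is a list of pairs: the vertices are `0, …, T.length`, the agent starts at the
vertex `0`, and the entry with index `i - 1` is the parent of the vertex `i` and the presence
pattern of the edge between `i` and its parent. `Legal p T` says that parents are smaller than their
children and that the patterns have length `p` and contain a `true`.

The algorithm contracts the last vertices, one after the other, into their parents. For each vertex
`v` the part contracted into `v` is covered by a family of fragments of the walk, which start in `v`
and, with the exception of the last one, end in `v`; only the residues modulo `p` of the two times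
are kept for each fragment, and the total duration. As all fragments together are at most as many
as there are time steps (plus one), there are polynomially many such data for fixed `p`.
-/

namespace Pool.Agent.Results.MP_ce2681_lc.FixedPeriod

open Pool.Agent.NPC Pool.Agent.H801.Pt

/-- For every fixed period `p` the cover time of periodic temporal trees with period `p` is computed
by a polynomial-time Turing machine. -/
theorem result (p : ℕ) (hp : 1 ≤ p) : ∃ F : List Bool → List Bool, PolyTime F ∧
    ∀ T : Tr, Legal p T → F (bits T) = bits (coverTime p T) := by
  refine ⟨fun x => bits (match unbits Tr x with
    | none => 0
    | some T => out p T), ?_, fun T hT => ?_⟩
  · refine polyTime_bits ((Poly.optCases (o := fun x => unbits Tr x)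
      (g := fun _ => 0) (h := fun _ T => out p T) poly_unbits (NPC.Poly.const 0)
      (p_out (Poly.snd Poly.id))).congr fun x => ?_)
    cases unbits Tr x <;> rfl
  · simp only [unbits_bits]
    rw [out_eq hp hT]

end Pool.Agent.Results.MP_ce2681_lc.FixedPeriod
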